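import Pool.Agent.H66.XP.TH

/-! Row GLX of the board `xpm_modules` (problem MP_0f8dca_lc): the dependence on the default
oracle. -/

set_option autoImplicit false

namespace Pool.Agent.H1.XP

open Finset Pool.Agent.H6.NB Pool.Agent.H70.OQ Pool.Agent.H70.EH Pool.Agent.H70.EI Pool.Agent.H78.XQ
open Pool.Agent.H66.IP (Local ins sp dm IsZ scl)
open Pool.Agent.H66.IQ Pool.Agent.H66.AV
open Pool.Agent.H66.XP

private lemma gd_eq {n s : ℕ} {g g' : List Bool → Bool}
    (h : ∀ w, (∀ (n' k : ℕ) (x : Fin n' → Bool) (q : Nn n' k), n ≤ n' → w ≠ astr n' k x q) →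
      g w = g' w) (hs : s ≤ n) : gd s g = gd s g' := by
  funext w
  unfold gd
  by_cases hw : ∃ (n k : ℕ) (x : Fin n → Bool) (q : Nn n k), s ≤ n ∧ w = astr n k x q
  · rw [if_pos hw, if_pos hw]
  · rw [if_neg hw, if_neg hw]
    refine h w fun n' k x q hn hwe => hw ⟨n', k, x, q, hs.trans hn, hwe⟩

theorem pf_GLX : Pool.Agent.H66.XP.T_GLX := by
  classical
  intro V E O n g g' h P B
  have hvw : ∀ a, 3 * scl (lo V) a ≤ n → vw V E O g P B a = vw V E O g' P B a := by
    intro a ha
    unfold vw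
    rw [gd_eq h ha]
  have htq : ∀ a, 3 * scl (lo V) a ≤ n → tq V E O g P B a = tq V E O g' P B a := by
    intro a ha
    unfold tq
    rw [hvw a ha]
  have han : ∀ a, 3 * scl (lo V) a ≤ n → an V E O g P B a = an V E O g' P B a := by
    intro a ha
    unfold Pool.Agent.H66.XP.an
    rw [hvw a ha]
  have hmsk : ∀ p, 3 * scl (lo V) p ≤ n → msk V E O g P B p = msk V E O g' P B p := by
    intro p hp
    unfold msk
    refine Prod.ext ?_ ?_
    · refine filter_congr fun u _ => ?_
      constructor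
      · rintro ⟨a, ha, h1, h2⟩
        rw [htq a (by omega)] at h2
        exact ⟨a, ha, h1, h2⟩
      · rintro ⟨a, ha, h1, h2⟩
        rw [← htq a (by omega)] at h2
        exact ⟨a, ha, h1, h2⟩
    · refine filter_congr fun u _ => ?_
      constructor
      · rintro ⟨a, ha, h1, h2⟩
        rw [htq a (by omega)] at h2
        exact ⟨a, ha, h1, h2⟩
      · rintro ⟨a, ha, h1, h2⟩
        rw [← htq a (by omega)] at h2
        exact ⟨a, ha, h1, h2⟩
  refine ⟨htq, ?_⟩
  unfold wX
  refine prod_congr rfl fun p _ => ?_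
  by_cases hp : 3 * scl (lo V) p.1 ≤ n
  · rw [if_pos hp, if_pos hp]
    unfold lwX
    rw [han p.1 hp, hmsk p.1 hp]
  · rw [if_neg hp, if_neg hp]

end Pool.Agent.H1.XP
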