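import Pool.Agent.H66.XP.TG

/-! Row UNI of the board `xpm_modules` (problem MP_0f8dca_lc): the uniform distribution of the
contents which agree with `B` on the mask. -/

set_option autoImplicit false

namespace Pool.Agent.H1.XP

open Finset Pool.Agent.H6.NB Pool.Agent.H70.EH Pool.Agent.H78.XQ
open Pool.Agent.H70.OQ (ic)
open Pool.Agent.H66.IQ
open Pool.Agent.H66.XP

private lemma card_agree {U A : Type} [Fintype U] [DecidableEq U] [Fintype A] [DecidableEq A]
    (S : Finset U) (B : U → A) :
    (univ.filter fun P : U → A => ∀ u ∈ S, P u = B u).card =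
      Fintype.card A ^ (univ \ S).card := by
  have e : (univ.filter fun P : U → A => ∀ u ∈ S, P u = B u) =
      Fintype.piFinset (fun u => if u ∈ S then {B u} else univ) := by
    ext P
    rw [mem_filter, Fintype.mem_piFinset]
    constructor
    · rintro ⟨-, h⟩ u
      by_cases hu : u ∈ S
      · rw [if_pos hu, mem_singleton]
        exact h u hu
      · rw [if_neg hu]
        exact mem_univ _
    · intro h
      refine ⟨mem_univ _, fun u hu => ?_⟩
      have h1 := h u
      rw [if_pos hu, mem_singleton] at h1
      exact h1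
  rw [e, Fintype.card_piFinset, ← prod_sdiff (subset_univ S)]
  have h1 : ∏ u ∈ univ \ S, (if u ∈ S then ({B u} : Finset A) else univ).card =
      Fintype.card A ^ (univ \ S).card := by
    rw [← prod_const]
    refine prod_congr rfl fun u hu => ?_
    rw [if_neg (mem_sdiff.1 hu).2, card_univ]
  have h2 : ∏ u ∈ S, (if u ∈ S then ({B u} : Finset A) else univ).card = 1 := by
    refine prod_eq_one fun u hu => ?_
    rw [if_pos hu, card_singleton]
  rw [h1, h2, mul_one]

private lemma kp_eq {q l n : ℕ} {K : Mk l n} {B B' : Bc q l n} (h : Ag K B B') :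
    kp K B = kp K B' := by
  funext z
  unfold kp
  by_cases hz : z ∈ K.2
  · rw [if_pos hz, if_pos hz, h.2 z hz]
  · rw [if_neg hz, if_neg hz]

private lemma Ag_iff {q l n : ℕ} {K : Mk l n} {B B' : Bc q l n} (h : Ag K B B')
    (c : Bc q l n) : Ag K B c ↔ Ag K B' c := by
  constructor
  · rintro ⟨h1, h2⟩
    exact ⟨fun u hu => (h1 u hu).trans (h.1 u hu).symm, fun z hz => (h2 z hz).trans (h.2 z hz).symm⟩
  · rintro ⟨h1, h2⟩
    exact ⟨fun u hu => (h1 u hu).trans (h.1 u hu), fun z hz => (h2 z hz).trans (h.2 z hz)⟩

theorem pf_UNI : Pool.Agent.H66.XP.T_UNI := by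
  classical
  intro q l n K B B' c
  refine ⟨fun h => ⟨Ag_iff h, fun R b => ?_⟩, ?_⟩
  · unfold mX
    by_cases hc : OkC q l R n b c ∧ Ag K B c
    · rw [if_pos hc, if_pos ⟨hc.1, (Ag_iff h c).1 hc.2⟩, kp_eq h]
    · rw [if_neg hc, if_neg fun h' => hc ⟨h'.1, (Ag_iff h c).2 h'.2⟩]
  · unfold m0X
    by_cases hc : Ag K B c
    · rw [if_pos hc, if_pos hc]
      have hcard : (univ.filter fun c' => Ag K B c').card =
          (2 ^ (2 * 2 ^ q)) ^ (univ \ K.1).card * 2 ^ (2 ^ n - K.2.card) := by
        have e : (univ.filter fun c' : Bc q l n => Ag K B c') =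
            (univ.filter fun P : (Fin (2 * l) → Bool) → (VV q → Bool) => ∀ u ∈ K.1,
              P u = B.1 u) ×ˢ (univ.filter fun h : (Fin n → Bool) → Bool => ∀ z ∈ K.2,
              h z = B.2 z) := by
          ext c'
          rw [mem_filter, mem_product, mem_filter, mem_filter]
          constructor
          · rintro ⟨-, h1, h2⟩
            exact ⟨⟨mem_univ _, h1⟩, mem_univ _, h2⟩
          · rintro ⟨⟨-, h1⟩, -, h2⟩
            exact ⟨mem_univ _, h1, h2⟩
        rw [e, card_product, card_agree, card_agree]
        congr 1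
        · congr 1
          rw [Fintype.card_fun, Fintype.card_bool, Fintype.card_prod, Fintype.card_bool,
            Fintype.card_fun, Fintype.card_bool, Fintype.card_fin]
        · rw [Fintype.card_bool, card_univ_diff, Fintype.card_fun, Fintype.card_bool,
            Fintype.card_fin]
      rw [hcard]
      have hmv : ∀ p : VV q → Bool, mv false q p = 1 / 2 ^ (2 * 2 ^ q) := by
        intro p
        unfold mv
        rw [if_neg (by simp)]
      simp only [hmv, prod_const]
      push_cast
      rw [one_div, one_div, inv_pow, mul_inv, div_eq_mul_inv]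
    · rw [if_neg hc, if_neg hc]

end Pool.Agent.H1.XP
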